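import Pool.Agent.helper69.SN.SpecA

/-!
# sn:aCL2 (MP_d2d7b9): joint closedness of the cones
-/

open scoped Pointwise ContDiff
open MeasureTheory Set Filter Topology

namespace Pool.Agent.helper69.SN

open Pool.Agent.helper83.SC

/-- aCL2: the set of the pairs `(B, M)` with `M ∈ GG B` is closed. -/
theorem aCL2 (hCNT : aCNT_stmt) : aCL2_stmt := by
  intro m n
  have hc : Continuous (fun p : (Fin n → Mat m) × Mat m => Ph p.1 p.2) := (hCNT 0).2
  have hset : {p : (Fin n → Mat m) × Mat m | p.2 ∈ GG p.1} =
      {p : (Fin n → Mat m) × Mat m | p.2.transpose = p.2} ∩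
        ⋂ (t : ℝ) (_ : 0 ≤ t), {p : (Fin n → Mat m) × Mat m |
          t ^ m ≤ Ph p.1 (p.2 + t • (1 : Mat m))} := by
    ext p
    simp only [mem_ofPred_eq, mem_inter_iff, mem_iInter, GG, Matrix.IsSymm]
  rw [hset]
  refine IsClosed.inter ?_ ?_
  · exact isClosed_eq (continuous_snd.matrix_transpose) continuous_snd
  · refine isClosed_iInter fun t => isClosed_iInter fun _ => ?_
    refine isClosed_le continuous_const ?_
    have h2 : Continuous (fun p : (Fin n → Mat m) × Mat m => (p.1, p.2 + t • (1 : Mat m))) :=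
      continuous_fst.prodMk (continuous_snd.add continuous_const)
    have h3 : Continuous ((fun q : (Fin n → Mat m) × Mat m => Ph q.1 q.2) ∘
        (fun p : (Fin n → Mat m) × Mat m => (p.1, p.2 + t • (1 : Mat m)))) :=
      Continuous.comp hc h2
    exact h3

end Pool.Agent.helper69.SN
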